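import Pool.Agent.N967.G.Fin4
import Pool.Agent.N967.G.Lam

/-!
# Baez-Duarte's distance for the L-functions of elliptic curves

Let `E` be an elliptic curve over `ℚ` of conductor `N`, `χ` a primitive Dirichlet character modulo `q` with
`q` prime to `N` (`q = 1` is `E` itself), `L(s) = L(E ⊗ χ, s)`, and let `Λ` be the completed L-function, with the
critical line `Re s = 1`.  For a natural number `M` let

  `d_M² = inf (1/2π) ∫ |1 - L(1 + it) A(1 + it)|² dt / (1/4 + t²)`,

the infimum over all Dirichlet polynomials `A(s) = ∑_(n ≤ M) a_n n^(-s)`: the square of the distance of Nyman,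
Beurling and Baez-Duarte from `1` to the multiples of `L` by Dirichlet polynomials.

**Theorem.**  If the Riemann hypothesis holds for `L(E ⊗ χ, s)` then the sum of `m(ρ)² / (1/4 + γ²)` over the different
zeros `ρ = 1 + iγ` of `Λ` (with the multiplicities `m(ρ)`) converges and

  `d_M² log M → ∑ m(ρ)² / (1/4 + γ²)`   (`M → ∞`).

If it fails then `d_M² ≥ δ > 0` for all `M`.  So the Riemann hypothesis for `L(E ⊗ χ, s)` holds if and only if
`d_M² log M` has a finite limit.  Moreover `∑ m(ρ) / (1/4 + γ²) = 2 Re (Λ'/Λ)(3/2)` under the Riemann hypothesis; so the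
Riemann hypothesis holds AND all zeros are simple if and only if `d_M² log M → 2 Re (Λ'/Λ)(3/2)`.

Nothing else is assumed: no hypothesis on the multiplicities or on the spacing of the zeros.

Proof.  Lower bound (idea of Burnol): the functions of the Mellin side which vanish at the zeros are tested on the
functions `s ↦ 1/(s - ρ)`, smoothed.  Upper bound: one needs an approximate inverse of `L` of length `M`, with the error
`m(ρ)²/|ρ|² log M` at each zero, although `1/L` is not bounded on the critical line in any sense.  We use the function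
`L(s) / L(s + ε φ(s))`, with a shift depending on the height, the local factorization of `L` in discs and the bound `C log t`
for the number of zeros, which make the integral over the bad heights small, and a smooth cutoff of the Dirichlet
series of `1 / L(s + ε)`; a coefficient by coefficient optimization then gives the exact constant.
The modules are in `Pool.Agent.N967.G` (with helpers 27, 72, 73, 75, 80, 136, 157, 163, 278, 325, 429, 455, 457, 494, 572, 603,
717, 769, 803, 814, 832, 849, 861, 951); the analytic properties of the twists of newforms of weight two are those of the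
starting modules `Pool.Agent.W355.UN` and `Pool.Agent.W440.TW`.
-/

set_option autoImplicit false

open Complex UpperHalfPlane MatrixGroups CongruenceSubgroup
open Pool.Agent.N967.G (BaezDuarte)

namespace Pool.Agent.Results.MP_553913_nt.BaezDuarteAsymptotic

/-- The coefficient `a_p` of `E : y² = x³ + a x + b` at a prime `p ∤ 2 (4a³ + 27b²)`: `p` minus the
number of pairs `(x, y)` modulo `p` with `y² ≡ x³ + a x + b (mod p)`. -/
noncomputable def ap (a b : ℤ) (p : ℕ) : ℤ :=
  (p : ℤ) - (((Finset.range p ×ˢ Finset.range p).filter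
    (fun xy : ℕ × ℕ => (p : ℤ) ∣ (xy.2 : ℤ) ^ 2 -
      ((xy.1 : ℤ) ^ 3 + a * (xy.1 : ℤ) + b))).card : ℤ)

/-- The `n`-th Fourier coefficient of `f`. -/
noncomputable def coef {N : ℕ} (f : CuspForm (Gamma0 N : Subgroup (GL (Fin 2) ℝ)) 2) (n : ℕ) : ℂ :=
  (qExpansion 1 f).coeff n

/-- `f ∈ S_2(Γ₀(N))` is the newform of the elliptic curve `E : y² = x³ + a x + b` of conductor `N` and
root number `w`: the Fourier coefficients `c(n)` of `f` are real with `c(1) = 1`, they satisfy the
Hecke relations `c(mn) = c(m) c(n)` for coprime `m`, `n` and `c(p^(j+2)) = c(p) c(p^(j+1)) - p c(p^j)`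
(without the last term if `p ∣ N`), `f(-1/(Nτ)) = -w N τ² f(τ)`, `c(p) = a_p(E)` for all primes
`p ∤ 2 (4a³ + 27b²)`, `|c(p)| ≤ 2 √p` for all `p ∤ N` (Hasse) and `c(p) = 0, 1, -1` for `p ∣ N`.
By the modularity theorem (Wiles, Taylor-Wiles, Breuil-Conrad-Diamond-Taylor) it exists for every `E`. -/
structure IsFormOf (a b : ℤ) (N : ℕ) (f : CuspForm (Gamma0 N : Subgroup (GL (Fin 2) ℝ)) 2) (w : ℝ) :
    Prop where
  one : coef f 1 = 1
  real : ∀ n, (coef f n).im = 0
  mul : ∀ m n : ℕ, Nat.Coprime m n → coef f (m * n) = coef f m * coef f n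
  pow : ∀ p j : ℕ, p.Prime → coef f (p ^ (j + 2)) = coef f p * coef f (p ^ (j + 1)) -
      (if p ∣ N then 0 else (p : ℂ) * coef f (p ^ j))
  sign : w = 1 ∨ w = -1
  fricke : ∀ τ τ' : ℍ, (τ' : ℂ) * ((N : ℂ) * (τ : ℂ)) = -1 →
    f τ' = -(w : ℂ) * (N : ℂ) * (τ : ℂ) ^ 2 * f τ
  points : ∀ p : ℕ, p.Prime → ¬ (p : ℤ) ∣ 2 * (4 * a ^ 3 + 27 * b ^ 2) → coef f p = (ap a b p : ℂ)
  good : ∀ p : ℕ, p.Prime → ¬ p ∣ N → ‖coef f p‖ ≤ 2 * Real.sqrt p
  bad : ∀ p : ℕ, p.Prime → p ∣ N → coef f p = 0 ∨ coef f p = 1 ∨ coef f p = -1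

/-- `L = L(E ⊗ χ, s)` and `Λ = Λ(E ⊗ χ, s)` are the L-function and the completed L-function of the twist of `E` by the
character `χ` modulo `q`: they are entire and `L(s) = ∑ c(n) χ(n) n^(-s)`, `Λ(s) = (√N q / 2π)^s Γ(s) L(s)`
for `Re s > 2`. -/
structure IsTwist {N : ℕ} (f : CuspForm (Gamma0 N : Subgroup (GL (Fin 2) ℝ)) 2) {q : ℕ}
    (χ : DirichletCharacter ℂ q) (L Λ : ℂ → ℂ) : Prop where
  entire : Differentiable ℂ L
  entire' : Differentiable ℂ Λ
  series : ∀ s : ℂ, 2 < s.re → L s =
    ∑' n : ℕ, coef f (n + 1) * χ ((n + 1 : ℕ) : ZMod q) * ((n + 1 : ℕ) : ℂ) ^ (-s)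
  completed : ∀ s : ℂ, 2 < s.re → Λ s =
    ((Real.sqrt N * q / (2 * Real.pi) : ℝ) : ℂ) ^ s * Complex.Gamma s * L s

lemma unique {F G : ℂ → ℂ} (hF : Differentiable ℂ F) (hG : Differentiable ℂ G) (h : ∀ s : ℂ, 2 < s.re → F s = G s) :
    F = G := by
  have h3 : F =ᶠ[nhds (3 : ℂ)] G := by
    have hmem : {s : ℂ | 2 < s.re} ∈ nhds (3 : ℂ) := by
      refine (isOpen_lt continuous_const Complex.continuous_re).mem_nhds ?_
      show (2 : ℝ) < ((3 : ℂ)).re
      rw [show ((3 : ℂ)).re = 3 by norm_num]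
      norm_num
    filter_upwards [hmem] with z hz
    exact h z hz
  funext s
  have h1 : AnalyticOnNhd ℂ F Set.univ := fun z _ => hF.analyticAt z
  have h2 : AnalyticOnNhd ℂ G Set.univ := fun z _ => hG.analyticAt z
  exact h1.eqOn_of_preconnected_of_eventuallyEq h2 isPreconnected_univ (Set.mem_univ _) h3 (Set.mem_univ s)

/-- **The theorem.**  For `Λ = Λ(E ⊗ χ, s)`, `L = L(E ⊗ χ, s)` and the critical line `Re s = 1` all the statements in
`BaezDuarte` hold. -/
theorem result (a b : ℤ) (N : ℕ) [NeZero N] (f : CuspForm (Gamma0 N : Subgroup (GL (Fin 2) ℝ)) 2) (w : ℝ)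
    (_ : 4 * a ^ 3 + 27 * b ^ 2 ≠ 0) (hf : IsFormOf a b N f w)
    (q : ℕ) [NeZero q] (χ : DirichletCharacter ℂ q) (hχ : χ.IsPrimitive) (hq : Nat.Coprime q N) :
    ∃ L Λ : ℂ → ℂ, IsTwist f χ L Λ ∧ (∀ L' Λ' : ℂ → ℂ, IsTwist f χ L' Λ' → L' = L ∧ Λ' = Λ) ∧
      BaezDuarte Λ L 1 := by
  have hf' : Pool.Agent.W169.HF.IsForm N f w :=
    { one := hf.one
      real := hf.real
      mul := hf.mul
      pow := hf.pow
      sign := hf.sign
      fricke := hf.fricke
      good := hf.good
      bad := fun p hp hpN => by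
        have h1 : (1 : ℝ) ≤ Real.sqrt p := by
          rw [Real.one_le_sqrt]
          exact_mod_cast hp.one_le
        have h2 : ‖coef f p‖ ≤ 1 := by
          rcases hf.bad p hp hpN with h | h | h <;> simp [h]
        exact h2.trans h1 }
  obtain ⟨L, Λ, h1, h2, h3, h4⟩ := Pool.Agent.N967.G.tw_exists hf' χ hχ hq
  have h5 : IsTwist f χ L Λ := by
    refine ⟨h1, h2, fun s hs => h3 s (by linarith), fun s hs => ?_⟩
    rcases h4 s with h | ⟨n, h⟩
    · exact h
    · rw [h] at hs
      simp only [Complex.neg_re, Complex.natCast_re] at hs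
      have : (0 : ℝ) ≤ n := Nat.cast_nonneg n
      linarith
  refine ⟨L, Λ, h5, fun L' Λ' h6 => ?_, ?_⟩
  · have h7 : L' = L := unique h6.entire h5.entire fun s hs => by rw [h6.series s hs, h5.series s hs]
    refine ⟨h7, unique h6.entire' h5.entire' fun s hs => ?_⟩
    rw [h6.completed s hs, h5.completed s hs, h7]
  · exact Pool.Agent.N967.G.bd_tw Pool.Agent.N967.G.lamS hf' χ hχ hq h5.entire' h5.entire h5.series h5.completed

end Pool.Agent.Results.MP_553913_nt.BaezDuarteAsymptotic
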