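import Pool.Agent.N964.GX.EK2
import Pool.Agent.N964.GV.Eng
import Pool.Agent.N964.GV.Ps

/-!
# Zero-free half-planes for an elliptic curve and the summatory function of the inverse of its L-series

Let `E` be an elliptic curve over `ℚ` of conductor `N`, `χ` a primitive Dirichlet character modulo `q` with `q` prime to
`N` (`q = 1` is `E` itself), and let `L(s) = L(E ⊗ χ, s) = ∑ c(n) χ(n) n^(-s)`, with the critical line `Re s = 1`. Let

  `1 / L(s) = ∑ μ_E(n) n^(-s)`,

the analogue of the Moebius function. We prove, for every `θ` with `1/2 ≤ θ < 1`: `L(E ⊗ χ, s)` has no zeros with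
`Re s > θ + 1/2` if and only if

  `|∑_(n ≤ x) μ_E(n)| ≤ x^(θ + 1/2) exp(C W(θ, x))`    (`x ≥ 3`)

for some constant `C`, equivalently (normalised by `√n`) `|∑_(n ≤ x) μ_E(n) / √n| ≤ x^θ exp(C W(θ, x))`, where

  `W(1/2, x) = (log x)^(2/3) / log log x`,   `W(θ, x) = (log x)^(2(1-θ)/(2-θ)) (log log x)^4`  for `θ > 1/2`.

For `θ = 1/2` this is a criterion for the Riemann hypothesis for `L(E ⊗ χ, s)`. Known was the criterion with
`x^(θ+1/2+ε)` (Littlewood's theorem for zeta) and, by the classical pointwise bound for `1 / L`,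
`x^(θ+1/2) exp(C log x / log log x)`.

Proof. (Modules `Pool.Agent.N964.GX`.) For zeta the theorem of Soundararajan (2009) gives `exp(√log x (log log x)^14)`;
we use our version for zeta (`MP_a499ba_nt.MertensBound`), for an arbitrary L-function of degree `k` with the Ramanujan
bound:

1. (Explicit formula.) A contour integral of `L'/L` times `(cosh(l w) - 1) / (w² - s²)`, a kernel which is nonpositive at
   all zeros on the line, bounds `Re L'/L` at distance `s` from the critical line by a sum over the prime powers up to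
   `e^l` and the contribution `k log t` of the gamma factors. Integration over `s` gives
   `log 1/|L(1/2 + δ + it)| ≤ (k log t / l) log(1 + 1/(l δ)) + |prime polynomial| + O(log l + log(1 + 1/(lδ)))`.
2. (Moments.) `l = log T / V`, and `V` is chosen for every `t` as small as possible such that the pieces of the prime
   polynomial are small compared with `V`; high moments of the pieces bound the measure of the `t` for which `V` is
   large. So the mean of `1/|L(1/2 + δ + it)|` over `[0, T]` is at most `exp(C / (δ^k log(1/δ)^(k+1)))`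
   for `log T ≤ δ^(-k-2)`.
3. (Perron's formula) on the line `1/2 + δ` with `δ = (log x)^(-1/(k+1)) / log log x`; the exponent is
   `(log x)^(k/(k+1)) / log log x`, `k = 2` for elliptic curves.

For `θ > 1/2` the kernel is replaced by
`(s (e^(l w) - 1) - w (1 - e^(-l s))) / ((w² - s²) (cosh(l s) - 1))` plus an odd term; its real part is nonnegative in the
left half-plane (Phragmén-Lindelöf principle), so at all zeros, and the smaller coefficients of the prime polynomial on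
the line `θ` give the better exponent (modules `Pool.Agent.N964.GW`, `Pool.Agent.N964.GV`; for zeta:
`MP_5a4862_nt.MertensHalfPlanes`).

With helpers 40, 50, 97, 157, 186, 263, 279, 342, 344, 394, 413, 424, 490, 499, 521, 558, 607, 608, 645, 669, 702, 707,
749, 776, 862, 878, 885, 935, 951, 971, 999; the analytic properties of the twists of newforms are those of the starting
modules `Pool.Agent.W388`, `W440`, `W108` and others.
-/

set_option autoImplicit false

open Complex MatrixGroups CongruenceSubgroup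
open UpperHalfPlane hiding I

namespace Pool.Agent.Results.MP_553913_nt.MertensBound

/-- The coefficient `a_p` of `E : y² = x³ + a x + b` at a prime `p ∤ 2 (4a³ + 27b²)`: `p` minus the
number of pairs `(x, y)` modulo `p` with `y² ≡ x³ + a x + b (mod p)`. -/
noncomputable def ap (a b : ℤ) (p : ℕ) : ℤ :=
  (p : ℤ) - (((Finset.range p ×ˢ Finset.range p).filter
    (fun xy : ℕ × ℕ => (p : ℤ) ∣ (xy.2 : ℤ) ^ 2 -
      ((xy.1 : ℤ) ^ 3 + a * (xy.1 : ℤ) + b))).card : ℤ)

/-- The `n`-th Fourier coefficient of `f`. -/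
noncomputable def coef {N : ℕ} (f : CuspForm (Gamma0 N : Subgroup (GL (Fin 2) ℝ)) 2) (n : ℕ) : ℂ :=
  (qExpansion 1 f).coeff n

/-- `f ∈ S_2(Γ₀(N))` is the newform of the elliptic curve `E : y² = x³ + a x + b` of conductor `N` and
root number `w`: the Fourier coefficients `c(n)` of `f` are real with `c(1) = 1`, they satisfy the
Hecke relations `c(mn) = c(m) c(n)` for coprime `m`, `n` and `c(p^(j+2)) = c(p) c(p^(j+1)) - p c(p^j)`
(without the last term if `p ∣ N`), `f(-1/(Nτ)) = -w N τ² f(τ)`, `c(p) = a_p(E)` for all primes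
`p ∤ 2 (4a³ + 27b²)`, `|c(p)| ≤ 2 √p` for all `p ∤ N` (Hasse) and `c(p) = 0, 1, -1` for `p ∣ N`.
By the modularity theorem (Wiles, Taylor-Wiles, Breuil-Conrad-Diamond-Taylor) it exists for every `E`. -/
structure IsFormOf (a b : ℤ) (N : ℕ) (f : CuspForm (Gamma0 N : Subgroup (GL (Fin 2) ℝ)) 2) (w : ℝ) :
    Prop where
  one : coef f 1 = 1
  real : ∀ n, (coef f n).im = 0
  mul : ∀ m n : ℕ, Nat.Coprime m n → coef f (m * n) = coef f m * coef f n
  pow : ∀ p j : ℕ, p.Prime → coef f (p ^ (j + 2)) = coef f p * coef f (p ^ (j + 1)) -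
      (if p ∣ N then 0 else (p : ℂ) * coef f (p ^ j))
  sign : w = 1 ∨ w = -1
  fricke : ∀ τ τ' : ℍ, (τ' : ℂ) * ((N : ℂ) * (τ : ℂ)) = -1 →
    f τ' = -(w : ℂ) * (N : ℂ) * (τ : ℂ) ^ 2 * f τ
  points : ∀ p : ℕ, p.Prime → ¬ (p : ℤ) ∣ 2 * (4 * a ^ 3 + 27 * b ^ 2) → coef f p = (ap a b p : ℂ)
  good : ∀ p : ℕ, p.Prime → ¬ p ∣ N → ‖coef f p‖ ≤ 2 * Real.sqrt p
  bad : ∀ p : ℕ, p.Prime → p ∣ N → coef f p = 0 ∨ coef f p = 1 ∨ coef f p = -1

/-- `L = L(E ⊗ χ, s)` is the L-function of the twist of `E` by the character `χ` modulo `q`: it is entire and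
`L(s) = ∑ c(n) χ(n) n^(-s)` for `Re s > 3/2`. -/
structure IsTwist {N : ℕ} (f : CuspForm (Gamma0 N : Subgroup (GL (Fin 2) ℝ)) 2) {q : ℕ}
    (χ : DirichletCharacter ℂ q) (L : ℂ → ℂ) : Prop where
  entire : Differentiable ℂ L
  series : ∀ s : ℂ, 3 / 2 < s.re → L s =
    ∑' n : ℕ, coef f (n + 1) * χ ((n + 1 : ℕ) : ZMod q) * ((n + 1 : ℕ) : ℂ) ^ (-s)

/-- The Riemann hypothesis: the zeros of `L` with `Re s > 0` (all zeros but the trivial ones at `0, -1, -2, …`) have
`Re s = 1`. -/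
def RH (L : ℂ → ℂ) : Prop := ∀ s : ℂ, 0 < s.re → L s = 0 → s.re = 1

/-- `μ` is the inverse of the sequence `c` for Dirichlet convolution. -/
def IsInverse (c μ : ℕ → ℂ) : Prop :=
  ∀ n : ℕ, 1 ≤ n → ∑ d ∈ n.divisors, c d * μ (n / d) = if n = 1 then 1 else 0

/-- The exponent in the bound. -/
noncomputable def W (θ x : ℝ) : ℝ :=
  if θ = 1 / 2 then Real.log x ^ (2 / 3 : ℝ) / Real.log (Real.log x)
  else Real.log x ^ (2 * (1 - θ) / (2 - θ)) * Real.log (Real.log x) ^ 4

/-- **The theorem.** Let `L(s) = L(E ⊗ χ, s)` (it exists and is unique) and let `μ` be the coefficients of `1 / L`, that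
is, the inverse of `c(n) χ(n)` for Dirichlet convolution. For every `θ` with `1/2 ≤ θ < 1`, `L` has no zeros with
`Re s > θ + 1/2` if and only if `|∑_(n ≤ x) μ(n)| ≤ x^(θ + 1/2) exp(C W(θ, x))` for some `C`, and if and only if
`|∑_(n ≤ x) μ(n) / √n| ≤ x^θ exp(C W(θ, x))` for some `C`. For `θ = 1/2` this is the Riemann hypothesis for `L`. -/
theorem result (a b : ℤ) (N : ℕ) [NeZero N] (f : CuspForm (Gamma0 N : Subgroup (GL (Fin 2) ℝ)) 2) (w : ℝ)
    (_ : 4 * a ^ 3 + 27 * b ^ 2 ≠ 0) (hf : IsFormOf a b N f w)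
    (q : ℕ) [NeZero q] (χ : DirichletCharacter ℂ q) (hχ : χ.IsPrimitive) (hq : Nat.Coprime q N) :
    (∃ μ : ℕ → ℂ, IsInverse (fun n => coef f n * χ (n : ZMod q)) μ) ∧
    ∃ L : ℂ → ℂ, IsTwist f χ L ∧ (∀ L' : ℂ → ℂ, IsTwist f χ L' → L' = L) ∧
      (RH L ↔ ∀ s : ℂ, 1 < s.re → L s ≠ 0) ∧
      ∀ μ : ℕ → ℂ, IsInverse (fun n => coef f n * χ (n : ZMod q)) μ →
        (∀ s : ℂ, 3 / 2 < s.re → L s * ∑' n : ℕ, μ (n + 1) * ((n + 1 : ℕ) : ℂ) ^ (-s) = 1) ∧
        ∀ θ : ℝ, 1 / 2 ≤ θ → θ < 1 →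
          ((∀ s : ℂ, θ + 1 / 2 < s.re → L s ≠ 0) ↔ ∃ C : ℝ, ∀ x : ℝ, 3 ≤ x →
            ‖∑ n ∈ Finset.Icc 1 ⌊x⌋₊, μ n‖ ≤ x ^ (θ + 1 / 2) * Real.exp (C * W θ x)) ∧
          ((∀ s : ℂ, θ + 1 / 2 < s.re → L s ≠ 0) ↔ ∃ C : ℝ, ∀ x : ℝ, 3 ≤ x →
            ‖∑ n ∈ Finset.Icc 1 ⌊x⌋₊, μ n / ((Real.sqrt n : ℝ) : ℂ)‖ ≤ x ^ θ * Real.exp (C * W θ x)) := by
  have hf' : Pool.Agent.W169.HF.IsForm N f w :=
    { one := hf.one
      real := hf.real
      mul := hf.mul
      pow := hf.pow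
      sign := hf.sign
      fricke := hf.fricke
      good := hf.good
      bad := fun p hp hpN => by
        have h1 : (1 : ℝ) ≤ Real.sqrt p := by
          rw [Real.one_le_sqrt]
          exact_mod_cast hp.one_le
        have h2 : ‖coef f p‖ ≤ 1 := by
          rcases hf.bad p hp hpN with h | h | h <;> simp [h]
        exact h2.trans h1 }
  obtain ⟨F, hFd, hnice, hsum, hser, b0, hinv, hb0⟩ := Pool.Agent.N964.GX.nice_tw f hf' χ hχ hq
  set lam : ℕ → ℂ := fun n : ℕ => χ (n : ZMod q) * (W388.lamf f n : ℂ) with hlam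
  have hlam2 : lam = fun n : ℕ => (coef f n * χ (n : ZMod q)) / ((Real.sqrt n : ℝ) : ℂ) := by
    funext n
    rw [hlam]
    show χ (n : ZMod q) * (W388.lamf f n : ℂ) = _
    rw [Pool.Agent.N964.GX.lamf_eq hf.real n]
    show χ (n : ZMod q) * (coef f n / _) = _
    ring
  have hlam1 : lam 1 = 1 := by
    rw [hlam2]
    show coef f 1 * χ ((1 : ℕ) : ZMod q) / _ = 1
    rw [hf.one]
    simp
  -- from `μ` to `b`
  have hconv : ∀ μ : ℕ → ℂ, IsInverse (fun n => coef f n * χ (n : ZMod q)) μ →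
      Pool.Agent.N964.GX.IsInv lam (fun n => μ n / ((Real.sqrt n : ℝ) : ℂ)) := by
    intro μ hμ n hn
    have h1 := hμ n hn
    have e : ∀ d ∈ n.divisors, lam d * (μ (n / d) / ((Real.sqrt ((n / d : ℕ) : ℝ) : ℝ) : ℂ)) =
        (coef f d * χ (d : ZMod q) * μ (n / d)) / ((Real.sqrt n : ℝ) : ℂ) := by
      intro d hd
      rw [Nat.mem_divisors] at hd
      have e1 : Real.sqrt d * Real.sqrt ((n / d : ℕ) : ℝ) = Real.sqrt n := by
        rw [← Real.sqrt_mul (Nat.cast_nonneg d), ← Nat.cast_mul, Nat.mul_div_cancel' hd.1]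
      rw [hlam2, ← e1, Complex.ofReal_mul, div_mul_div_comm]
    show ∑ d ∈ n.divisors, lam d * (μ (n / d) / ((Real.sqrt ((n / d : ℕ) : ℝ) : ℝ) : ℂ)) = _
    rw [Finset.sum_congr rfl e, ← Finset.sum_div, h1]
    by_cases h : n = 1
    · rw [if_pos h, h]
      simp
    · rw [if_neg h, zero_div]
  have hex : ∃ μ : ℕ → ℂ, IsInverse (fun n => coef f n * χ (n : ZMod q)) μ := by
    obtain ⟨μ, -, hμ⟩ := Pool.Agent.N935.GXInv.invex (fun n => coef f n * χ (n : ZMod q)) (by
      show coef f 1 * χ ((1 : ℕ) : ZMod q) = 1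
      rw [hf.one]
      simp)
    exact ⟨μ, hμ⟩
  have h32 : ∀ s : ℂ, 3 / 2 < s.re → 1 < (s - 1 / 2).re := by
    intro s hs
    have e : ((1 / 2 : ℂ)).re = 1 / 2 := by norm_num
    rw [Complex.sub_re, e]
    linarith
  have hL : IsTwist f χ (fun s => F (s - 1 / 2)) := by
    refine ⟨hFd.comp (differentiable_id.sub_const _), fun s hs => ?_⟩
    show F (s - 1 / 2) = _
    rw [hser _ (h32 s hs), hlam2, Pool.Agent.N964.GX.series_shift]
  have e12 : ((1 / 2 : ℂ)).re = 1 / 2 := by norm_num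
  have hRH : RH (fun s => F (s - 1 / 2)) ↔ ∀ s : ℂ, -1 / 2 < s.re → F s = 0 → s.re = 1 / 2 := by
    constructor
    · intro h s hs h0
      have := h (s + 1 / 2) (by rw [Complex.add_re, e12]; linarith) (by simpa using h0)
      rw [Complex.add_re, e12] at this
      linarith
    · intro h s hs h0
      have := h (s - 1 / 2) (by rw [Complex.sub_re, e12]; linarith) h0
      rw [Complex.sub_re, e12] at this
      linarith
  have hsh : ∀ θ : ℝ, (∀ s : ℂ, θ + 1 / 2 < s.re → F (s - 1 / 2) ≠ 0) ↔ ∀ s : ℂ, θ < s.re → F s ≠ 0 := by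
    intro θ
    constructor
    · intro h s hs
      have := h (s + 1 / 2) (by rw [Complex.add_re, e12]; linarith)
      simpa using this
    · intro h s hs
      exact h (s - 1 / 2) (by rw [Complex.sub_re, e12]; linarith)
  have hW : ∀ θ x : ℝ, Pool.Agent.N964.GV.Wt 2 θ x = W θ x := by
    intro θ x
    unfold Pool.Agent.N964.GV.Wt W
    by_cases h : θ = 1 / 2
    · rw [if_pos h, if_pos h]
      norm_num
    · rw [if_neg h, if_neg h]
      congr 2
      push_cast
      ring_nf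
  refine ⟨hex, fun s => F (s - 1 / 2), hL, fun L' hL' => ?_, ?_, fun μ hμ => ?_⟩
  · -- uniqueness
    have h3 : L' =ᶠ[nhds (3 : ℂ)] fun s => F (s - 1 / 2) := by
      have hmem : {s : ℂ | 3 / 2 < s.re} ∈ nhds (3 : ℂ) := by
        refine (isOpen_lt continuous_const Complex.continuous_re).mem_nhds ?_
        show (3 / 2 : ℝ) < ((3 : ℂ)).re
        rw [show ((3 : ℂ)).re = 3 by norm_num]
        norm_num
      filter_upwards [hmem] with z hz
      rw [hL'.series z hz, hL.series z hz]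
    have h1 : AnalyticOnNhd ℂ L' Set.univ := fun z _ => hL'.entire.analyticAt z
    have h2 : AnalyticOnNhd ℂ (fun s => F (s - 1 / 2)) Set.univ := fun z _ => hL.entire.analyticAt z
    funext s
    exact h1.eqOn_of_preconnected_of_eventuallyEq h2 isPreconnected_univ (Set.mem_univ _) h3 (Set.mem_univ s)
  · rw [hRH, Pool.Agent.N964.GX.nice_iff hnice hb0]
    have h1 := Pool.Agent.N964.GV.nice_half Pool.Agent.N964.GV.eng hnice hb0 (le_refl (1 / 2 : ℝ)) (by norm_num)
    have h2 := hsh (1 / 2)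
    norm_num at h2
    rw [h2]
    have hQ : ∀ x : ℝ, Pool.Agent.N964.GV.Wt 2 (1 / 2) x = Pool.Agent.N964.GX.Qk 2 x := by
      intro x
      unfold Pool.Agent.N964.GV.Wt
      rw [if_pos rfl]
      rfl
    simp_rw [hQ, ← Real.sqrt_eq_rpow] at h1
    exact h1.symm
  · set b : ℕ → ℂ := fun n => μ n / ((Real.sqrt n : ℝ) : ℂ) with hbd
    have hbinv := hconv μ hμ
    have heq := Pool.Agent.N964.GX.inv_unique hlam1 hbinv hinv
    have hb : ∀ s : ℂ, 1 < s.re → LSeriesSummable b s ∧ F s * LSeries b s = 1 := by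
      intro s hs
      have e1 : ∀ {n : ℕ}, n ≠ 0 → b n = b0 n := fun {n} hn => heq n (by omega)
      rw [LSeriesSummable_congr s (fun {n} hn => e1 hn), LSeries_congr (fun {n} hn => e1 hn) s]
      exact hb0 s hs
    refine ⟨fun s hs => ?_, fun θ h0 h1 => ?_⟩
    · have := (hb _ (h32 s hs)).2
      rw [Pool.Agent.N964.GX.series_shift] at this
      exact this
    · have hmain := Pool.Agent.N964.GV.nice_half Pool.Agent.N964.GV.eng hnice hb h0 h1
      have hnorm : (∀ s : ℂ, θ + 1 / 2 < s.re → F (s - 1 / 2) ≠ 0) ↔ ∃ C : ℝ, ∀ x : ℝ, 3 ≤ x →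
          ‖∑ n ∈ Finset.Icc 1 ⌊x⌋₊, b n‖ ≤ x ^ θ * Real.exp (C * Pool.Agent.N964.GV.Wt 2 θ x) := (hsh θ).trans hmain
      refine ⟨?_, ?_⟩
      · show (∀ s : ℂ, θ + 1 / 2 < s.re → F (s - 1 / 2) ≠ 0) ↔ _
        rw [hnorm, Pool.Agent.N964.GV.half_shift (by norm_num) b h0 h1]
        simp_rw [hW]
        have e2 : ∀ x : ℝ, ∑ n ∈ Finset.Icc 1 ⌊x⌋₊, ((Real.sqrt n : ℝ) : ℂ) * b n = ∑ n ∈ Finset.Icc 1 ⌊x⌋₊, μ n := by
          intro x
          refine Finset.sum_congr rfl fun n hn => ?_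
          rw [Finset.mem_Icc] at hn
          have hn0 : ((Real.sqrt n : ℝ) : ℂ) ≠ 0 := by
            have : 0 < Real.sqrt n := Real.sqrt_pos.2 (by exact_mod_cast hn.1)
            exact_mod_cast this.ne'
          rw [hbd]
          field_simp
        simp_rw [e2]
      · show (∀ s : ℂ, θ + 1 / 2 < s.re → F (s - 1 / 2) ≠ 0) ↔ _
        rw [hnorm]
        simp_rw [hW]

end Pool.Agent.Results.MP_553913_nt.MertensBound
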